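import Mathlib

/-!
# Graphs with sinks and their configuration spaces
-/

set_option autoImplicit false

open scoped unitInterval Topology

namespace Pool.Agent.R731.SK

/-- A finite graph; loops and multiple edges are allowed. -/
structure Graph where
  /-- the vertices -/
  V : Type
  /-- the edges -/
  E : Type
  finV : Finite V
  finE : Finite E
  /-- the initial vertex of an edge -/
  src : E → V
  /-- the terminal vertex of an edge -/
  tgt : E → V

/-- The disjoint union of the vertices and of one interval for each edge. -/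
abbrev Graph.Pre (Γ : Graph) : Type := (Σ _ : Γ.V, Unit) ⊕ (Σ _ : Γ.E, I)

/-- The two ends of the interval of an edge are glued to the endpoints of the edge. -/
inductive Graph.Glue (Γ : Graph) : Γ.Pre → Γ.Pre → Prop
  | src (e : Γ.E) : Graph.Glue Γ (Sum.inr ⟨e, 0⟩) (Sum.inl ⟨Γ.src e, ()⟩)
  | tgt (e : Γ.E) : Graph.Glue Γ (Sum.inr ⟨e, 1⟩) (Sum.inl ⟨Γ.tgt e, ()⟩)

/-- The finite one-dimensional CW complex of the graph. -/
def Graph.Space (Γ : Graph) : Type := Quot Γ.Glue

instance (Γ : Graph) : TopologicalSpace Γ.Space := inferInstanceAs (TopologicalSpace (Quot Γ.Glue))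

/-- The point of the complex given by a vertex. -/
def Graph.vertex (Γ : Graph) (v : Γ.V) : Γ.Space := Quot.mk _ (Sum.inl ⟨v, ()⟩)

/-- The ordered configuration space `F_k(Γ, S)`: particles may collide only at sinks. -/
abbrev Conf (Γ : Graph) (S : Set Γ.V) (k : ℕ) : Type :=
  {x : Fin k → Γ.Space // ∀ i j, i ≠ j → x i = x j → ∃ s ∈ S, x i = Γ.vertex s}

/-- Two ordered configurations differ by a permutation of the particles. -/
def PermRel (Γ : Graph) (S : Set Γ.V) (k : ℕ) (x y : Conf Γ S k) : Prop :=
  ∃ τ : Equiv.Perm (Fin k), ∀ i, y.1 i = x.1 (τ i)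

/-- The unordered configuration space `B_k(Γ, S) = F_k(Γ, S) / Σ_k`, with the quotient topology. -/
def UConf (Γ : Graph) (S : Set Γ.V) (k : ℕ) : Type := Quot (PermRel Γ S k)

instance (Γ : Graph) (S : Set Γ.V) (k : ℕ) : TopologicalSpace (UConf Γ S k) :=
  inferInstanceAs (TopologicalSpace (Quot (PermRel Γ S k)))

/-- A space is aspherical if `π_n` vanishes for all `n ≥ 2` and all base points. -/
def Aspherical (X : Type) [TopologicalSpace X] : Prop :=
  ∀ n : ℕ, 2 ≤ n → ∀ x : X, Subsingleton (HomotopyGroup.Pi n X x)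

end Pool.Agent.R731.SK
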