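import Pool.Agent.R731.SK.Main

set_option autoImplicit false

open scoped unitInterval Topology

namespace Pool.Agent.R731.SK

open Pool.Agent.W623.VR

theorem norm_gg_pos (y : Fin 2 → ℝ) : 0 < ‖gg y‖ := by
  obtain ⟨j, hj⟩ := gg_ne y
  refine norm_pos_iff.2 fun h => hj ?_
  rw [h]; rfl

theorem abs_le_norm (g : Fin 3 → ℝ) (j : Fin 3) : |g j| ≤ ‖g‖ := by
  have := norm_le_pi_norm g j
  rwa [Real.norm_eq_abs] at this

/-- The point of the boundary of the unit cube in direction `gg y`. -/
noncomputable def tv (y : Fin 2 → ℝ) (j : Fin 3) : I :=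
  ⟨(1 + gg y j / ‖gg y‖) / 2, by
    have h0 := norm_gg_pos y
    have h1 := abs_le.1 (abs_le_norm (gg y) j)
    have h2 : -1 ≤ gg y j / ‖gg y‖ := by rw [le_div_iff₀ h0]; linarith [h1.1]
    have h3 : gg y j / ‖gg y‖ ≤ 1 := by rw [div_le_iff₀ h0]; linarith [h1.2]
    constructor <;> linarith⟩

theorem continuous_tv : Continuous tv := by
  refine continuous_pi fun j => Continuous.subtype_mk ?_ _
  have hc : Continuous fun y : Fin 2 → ℝ => gg y j := (continuous_apply j).comp continuous_gg
  have hn : Continuous fun y : Fin 2 → ℝ => ‖gg y‖ := continuous_gg.norm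
  exact (continuous_const.add (hc.div hn fun y => (norm_gg_pos y).ne')).div_const _

theorem tv_mem (y : Fin 2 → ℝ) : ∃ i, tv y i = 0 ∨ tv y i = 1 := by
  have h0 := norm_gg_pos y
  have hex : ∃ i, |gg y i| = ‖gg y‖ := by
    by_contra hcon
    push Not at hcon
    have hlt : ‖gg y‖ < ‖gg y‖ := by
      refine (pi_norm_lt_iff h0).2 fun i => ?_
      rw [Real.norm_eq_abs]
      exact lt_of_le_of_ne (abs_le_norm _ i) (hcon i)
    exact lt_irrefl _ hlt
  obtain ⟨i, hi⟩ := hex
  refine ⟨i, ?_⟩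
  rcases abs_choice (gg y i) with h | h
  · right
    apply Subtype.ext
    change (1 + gg y i / ‖gg y‖) / 2 = 1
    rw [← hi, h, div_self]
    · norm_num
    · rw [← h, hi]; exact h0.ne'
  · left
    apply Subtype.ext
    change (1 + gg y i / ‖gg y‖) / 2 = 0
    have h1 : gg y i = -‖gg y‖ := by linarith
    rw [h1, neg_div, div_self h0.ne']
    norm_num

theorem tv_of_norm {y : Fin 2 → ℝ} (hy : ‖y‖ = 1) : tv y = fun _ => 0 := by
  funext j
  apply Subtype.ext
  change (1 + gg y j / ‖gg y‖) / 2 = 0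
  rw [gg_of_norm hy]
  have : ‖(fun _ : Fin (2 + 1) => (-1 : ℝ))‖ = 1 := by
    rw [pi_norm_const]; norm_num
  rw [this]
  norm_num

/-- The parametrized sphere. -/
noncomputable def tb (y : Fin 2 → I) : Bd := ⟨tv (yy y), tv_mem _⟩

theorem continuous_tb : Continuous tb :=
  Continuous.subtype_mk (continuous_tv.comp continuous_yy) _

/-- the base point: both particles at the vertex -/
noncomputable def base : UC := P ⟨fun _ => 0, ⟨0, Or.inl rfl⟩⟩

/-- the spheroid -/
noncomputable def sph : GenLoop (Fin 2) UC base :=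
  ⟨⟨fun y => P (tb y), continuous_P.comp continuous_tb⟩, by
    intro y hy
    change P (tb y) = base
    unfold base
    congr 1
    apply Subtype.ext
    change tv (yy y) = fun _ => 0
    exact tv_of_norm (norm_yy_of_boundary hy)⟩

theorem sm_base (k : Fin 3) : sm base k = 0 := by
  unfold base
  rw [sm_P]; simp

theorem not_subsingleton_pi2 : ¬ Subsingleton (HomotopyGroup.Pi 2 UC base) := by
  intro hsub
  have heq : (Quotient.mk (GenLoop.Homotopic.setoid (Fin 2) base) sph :
      HomotopyGroup (Fin 2) UC base) =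
      Quotient.mk (GenLoop.Homotopic.setoid (Fin 2) base) GenLoop.const :=
    @Subsingleton.elim _ hsub _ _
  obtain ⟨H⟩ : (GenLoop.Homotopic (sph : GenLoop (Fin 2) UC base) GenLoop.const) :=
    Quotient.exact heq
  have hHside : ∀ (t : I), ∀ y ∈ Cube.boundary (Fin 2), H (t, y) = base := by
    intro t y hy
    have h3 := H.eq_fst t hy
    rw [h3]
    exact sph.2 y hy
  have hHtop : ∀ y, H (1, y) = base := by
    intro y
    rw [H.apply_one]; rfl
  have hHbot : ∀ y, H (0, y) = P (tb y) := by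
    intro y
    rw [H.apply_zero]; rfl
  have cov := AddCircle.isCoveringMap_coe (1 : ℝ)
  let Hk : Fin 3 → C(I × (Fin 2 → I), AddCircle (1 : ℝ)) := fun k =>
    ⟨fun z => sm (H z) k, (continuous_apply k).comp (continuous_sm.comp H.continuous)⟩
  let f : Fin 3 → C(Fin 2 → I, ℝ) := fun k =>
    ⟨fun y => (tv (yy y) k : ℝ), continuous_subtype_val.comp
      ((continuous_apply k).comp (continuous_tv.comp continuous_yy))⟩
  have H0 : ∀ k y, Hk k (0, y) = ((f k y : ℝ) : AddCircle (1 : ℝ)) := by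
    intro k y
    change sm (H (0, y)) k = _
    rw [hHbot, sm_P]
    rfl
  let L : Fin 3 → C(I × (Fin 2 → I), ℝ) := fun k => cov.liftHomotopy (Hk k) (f k) (H0 k)
  have hL0 : ∀ k y, L k (0, y) = (tv (yy y) k : ℝ) := fun k y => cov.liftHomotopy_zero _ _ _ y
  have hLp : ∀ k z, ((L k z : ℝ) : AddCircle (1 : ℝ)) = sm (H z) k := fun k z =>
    congrFun (cov.liftHomotopy_lifts (Hk k) (f k) (H0 k)) z
  have hside : ∀ k (t : I), ∀ y ∈ Cube.boundary (Fin 2), L k (t, y) = 0 := by
    intro k t y hy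
    have h := cov.eq_of_comp_eq (A := I) (g₁ := fun t => L k (t, y)) (g₂ := fun _ => (0 : ℝ))
      ((L k).continuous.comp (by fun_prop)) continuous_const (by
        funext t
        change ((L k (t, y) : ℝ) : AddCircle (1 : ℝ)) = ((0 : ℝ) : AddCircle (1 : ℝ))
        rw [hLp, hHside t y hy, sm_base]; simp) 0 (by
        change L k (0, y) = 0
        rw [hL0, tv_of_norm (norm_yy_of_boundary hy)]
        rfl)
    exact congrFun h t
  have htop : ∀ k y, L k (1, y) = 0 := by
    intro k y
    have h := cov.eq_of_comp_eq (A := Fin 2 → I) (g₁ := fun y => L k (1, y))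
      (g₂ := fun _ => (0 : ℝ))
      ((L k).continuous.comp (by fun_prop)) continuous_const (by
        funext y
        change ((L k (1, y) : ℝ) : AddCircle (1 : ℝ)) = ((0 : ℝ) : AddCircle (1 : ℝ))
        rw [hLp, hHtop y, sm_base]; simp) (fun _ => 0) (hside k 1 _ ⟨0, Or.inl rfl⟩)
    exact congrFun h y
  refine no_fill 2 (fun z k => L k z - 1 / 2) ?_ ?_ ?_ ?_ ?_
  · exact continuous_pi fun k => (L k).continuous.sub continuous_const
  · intro z hz
    obtain ⟨k, hk⟩ := sm_zero (H z)
    rw [← hLp, AddCircle.coe_eq_zero_iff] at hk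
    obtain ⟨n, hn⟩ := hk
    rw [zsmul_eq_mul, mul_one] at hn
    have h1 : L k z - 1 / 2 = 0 := congrFun hz k
    have h2 : (2 * n : ℝ) = 1 := by rw [hn]; linarith
    have h3 : (2 * n : ℤ) = 1 := by exact_mod_cast h2
    omega
  · intro y
    refine ⟨(2 * ‖gg (yy y)‖)⁻¹, by have := norm_gg_pos (yy y); positivity, ?_⟩
    funext k
    change L k (0, y) - 1 / 2 = (2 * ‖gg (yy y)‖)⁻¹ * gg (yy y) k
    rw [hL0]
    change (1 + gg (yy y) k / ‖gg (yy y)‖) / 2 - 1 / 2 = _
    have := (norm_gg_pos (yy y)).ne'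
    field_simp
    ring
  · intro y
    refine ⟨1 / 2, by norm_num, ?_⟩
    funext k
    change L k (1, y) - 1 / 2 = 1 / 2 * -1
    rw [htop]; norm_num
  · intro t y hy
    refine ⟨1 / 2, by norm_num, ?_⟩
    funext k
    change L k (t, y) - 1 / 2 = 1 / 2 * -1
    rw [hside k t y hy]; norm_num

theorem main : ¬ ∀ (Γ : Graph) (S : Set Γ.V) (k : ℕ),
    Aspherical (Conf Γ S k) ∧ Aspherical (UConf Γ S k) :=
  fun h => not_subsingleton_pi2 ((h B3 Set.univ 2).2 2 le_rfl base)

end Pool.Agent.R731.SK
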