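import Pool.Agent.W623.VR.Top

/-!
# There is no nonvanishing filling of a degree one map on the boundary of a cube
-/

set_option autoImplicit false

open Set Finset
open scoped unitInterval Topology

namespace Pool.Agent.R731.SK

open Pool.Agent.W623.VR

/-- A continuous map of `I × I^m` into `ℝ^{m+1}`, which on the bottom face is a positive multiple
of the direction map `gg` and on the other faces a positive multiple of `(-1, …, -1)`, has a
zero. -/
theorem no_fill (m : ℕ) (F : I × (Fin m → I) → Fin (m + 1) → ℝ) (hF : Continuous F)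
    (h0 : ∀ z, F z ≠ 0)
    (hbot : ∀ y, ∃ c : ℝ, 0 < c ∧ F (0, y) = c • gg (yy y))
    (htop : ∀ y, ∃ c : ℝ, 0 < c ∧ F (1, y) = c • (fun _ => -1))
    (hside : ∀ t, ∀ y ∈ Cube.boundary (Fin m), ∃ c : ℝ, 0 < c ∧ F (t, y) = c • (fun _ => -1)) :
    False := by
  let ar : (Fin m → ℝ) × ℝ → I × (Fin m → I) := fun u => (tcl u.2, fun i => tcl (u.1 i))
  have har : Continuous ar := by
    refine Continuous.prodMk (continuous_tcl.comp continuous_snd) (continuous_pi fun i => ?_)
    exact continuous_tcl.comp ((continuous_apply i).comp continuous_fst)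
  let G : (Fin m → ℝ) × ℝ → Fin (m + 1) → ℝ := fun u => F (ar u)
  have hG : Continuous G := hF.comp har
  have hG0 : ∀ u, TT (G u) ≠ 0 := fun u h => h0 (ar u) (funext (TT_eq_zero h))
  have hGn : ∀ u, 0 < ‖TT (G u)‖ := fun u => norm_pos_iff.2 (hG0 u)
  obtain ⟨u, hu⟩ := Pool.Agent.Helper31.GZ.Brouwer.brouwer
    (fun u => -((‖TT (G u)‖)⁻¹ • TT (G u)))
    (((continuous_TT.comp hG).norm.inv₀ fun u => (hGn u).ne').smul (continuous_TT.comp hG)).neg 1
    (fun u => by
      rw [norm_neg, norm_smul, norm_inv, norm_norm, inv_mul_cancel₀ (hGn u).ne'])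
  obtain ⟨M, hM⟩ : ∃ M : ℝ, M = ‖TT (G u)‖ := ⟨_, rfl⟩
  have hM0 : 0 < M := by rw [hM]; exact hGn u
  have hu1 : ‖u‖ = 1 := by
    rw [← hu, norm_neg, norm_smul, norm_inv, norm_norm, inv_mul_cancel₀ (hGn u).ne']
  have hTu : TT (G u) = -(M • u) := by
    have h1 : M • u = -(TT (G u)) := by
      conv_lhs => rw [← hu]
      rw [← hM, smul_neg, smul_smul, mul_inv_cancel₀ hM0.ne', one_smul]
    rw [h1, neg_neg]
  have hT2 : mean (G u) = M * u.2 := by
    have := congrArg Prod.snd hTu
    simp only [TT, Prod.snd_neg, Prod.smul_snd, smul_eq_mul] at this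
    linarith
  have hT1 : ∀ i : Fin m, G u i.castSucc = mean (G u) - M * u.1 i := fun i => by
    have := congrFun (congrArg Prod.fst hTu) i
    simp only [TT, Prod.fst_neg, Prod.smul_fst, Pi.neg_apply, Pi.smul_apply, smul_eq_mul] at this
    linarith
  have hn1 : ‖u.1‖ ≤ 1 := (norm_fst_le u).trans hu1.le
  have hn2 : ‖u.2‖ ≤ 1 := (norm_snd_le u).trans hu1.le
  have hu2 : -1 ≤ u.2 ∧ u.2 ≤ 1 := abs_le.1 (by rwa [Real.norm_eq_abs] at hn2)
  have hui : ∀ i, -1 ≤ u.1 i ∧ u.1 i ≤ 1 := fun i => by
    have := (norm_le_pi_norm u.1 i).trans hn1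
    rw [Real.norm_eq_abs] at this
    exact abs_le.1 this
  -- the constant value
  have hA : (∃ c : ℝ, 0 < c ∧ F (ar u) = c • (fun _ => -1)) → u.2 < 0 ∧ u.1 = 0 := by
    rintro ⟨c, hc, h1⟩
    have h1' : G u = c • (fun _ => -1) := h1
    have h2 : mean (G u) = -c := by
      rw [h1']
      unfold mean
      simp only [Pi.smul_apply, smul_eq_mul, Finset.sum_const, Finset.card_univ, Fintype.card_fin,
        nsmul_eq_mul]
      push_cast
      field_simp
    constructor
    · rw [h2] at hT2
      by_contra h3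
      push Not at h3
      have := mul_nonneg hM0.le h3
      linarith
    · funext i
      have h3 := hT1 i
      rw [h2, h1'] at h3
      have h4 : M * u.1 i = 0 := by
        simp only [Pi.smul_apply, smul_eq_mul] at h3
        linarith
      rcases mul_eq_zero.1 h4 with h5 | h5
      · exact absurd h5 hM0.ne'
      · exact h5
  -- boundary points
  have hbd : ‖u.1‖ ≠ 1 := by
    intro h
    have hex : ∃ i, |u.1 i| = 1 := by
      by_contra hcon
      push Not at hcon
      have hlt : ‖u.1‖ < 1 := by
        refine (pi_norm_lt_iff zero_lt_one).2 fun i => ?_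
        rw [Real.norm_eq_abs]
        exact lt_of_le_of_ne (abs_le.2 (hui i)) (hcon i)
      exact absurd h hlt.ne
    obtain ⟨i, hi⟩ := hex
    have hmem : (ar u).2 ∈ Cube.boundary (Fin m) := by
      refine ⟨i, ?_⟩
      have hval := tcl_val (hui i).1 (hui i).2
      rcases (abs_eq zero_le_one).1 hi with h1 | h1
      · right
        apply Subtype.ext
        change ((tcl (u.1 i) : I) : ℝ) = 1
        rw [hval, h1]; norm_num
      · left
        apply Subtype.ext
        change ((tcl (u.1 i) : I) : ℝ) = 0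
        rw [hval, h1]; norm_num
    have h4 := (hA (hside (ar u).1 (ar u).2 hmem)).2
    rw [h4, norm_zero] at h
    exact zero_ne_one h
  have hu2' : |u.2| = 1 := by
    rw [Prod.norm_def] at hu1
    rcases max_choice ‖u.1‖ ‖u.2‖ with h | h
    · rw [h] at hu1
      exact absurd hu1 hbd
    · rw [h, Real.norm_eq_abs] at hu1
      exact hu1
  rcases (abs_eq zero_le_one).1 hu2' with h1 | h1
  · -- top face
    have h3 : ar u = (1, (ar u).2) := by
      refine Prod.ext ?_ rfl
      apply Subtype.ext
      change ((tcl u.2 : I) : ℝ) = 1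
      rw [tcl_val hu2.1 hu2.2, h1]; norm_num
    have := (hA (by rw [h3]; exact htop _)).1
    linarith
  · -- bottom face
    have h3 : ar u = (0, (ar u).2) := by
      refine Prod.ext ?_ rfl
      apply Subtype.ext
      change ((tcl u.2 : I) : ℝ) = 0
      rw [tcl_val hu2.1 hu2.2, h1]; norm_num
    have h4 : yy (ar u).2 = u.1 := by
      funext i
      change 2 * ((tcl (u.1 i) : I) : ℝ) - 1 = u.1 i
      rw [tcl_val (hui i).1 (hui i).2]
      ring
    obtain ⟨c, hc, h5⟩ := hbot (ar u).2
    have h6 : G u = c • gg u.1 := by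
      change F (ar u) = _
      rw [h3, h5, h4]
    have h7 : mean (G u) = c * (1 - 2 * ‖u.1‖) := by
      have hs : ∑ j, gg u.1 j = (m + 1) * (1 - 2 * ‖u.1‖) := by
        unfold gg
        rw [Finset.sum_add_distrib, ← Finset.mul_sum, sum_ww]
        simp
        ring
      unfold mean
      rw [h6]
      simp only [Pi.smul_apply, smul_eq_mul]
      rw [← Finset.mul_sum, hs]
      field_simp
    have h8 : u.1 = 0 := by
      funext i
      have h9 := hT1 i
      rw [h7, h6] at h9
      simp only [Pi.smul_apply, smul_eq_mul, gg, ww_castSucc] at h9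
      have h10 : (c * (1 - ‖u.1‖) + M) * u.1 i = 0 := by linarith
      have h11 : 0 < c * (1 - ‖u.1‖) + M := by
        have := mul_nonneg hc.le (sub_nonneg.2 hn1)
        linarith
      rcases mul_eq_zero.1 h10 with h | h
      · exact absurd h h11.ne'
      · exact h
    rw [h7, h8, h1, norm_zero] at hT2
    linarith

end Pool.Agent.R731.SK
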