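import Pool.Agent.R731.SK.Defs
import Pool.Agent.R731.SK.NoFill

set_option autoImplicit false

open scoped unitInterval Topology

namespace Pool.Agent.R731.SK

open Pool.Agent.W623.VR

/-- The bouquet of three loops. -/
def B3 : Graph where
  V := Unit
  E := Fin 3
  finV := inferInstance
  finE := inferInstance
  src _ := ()
  tgt _ := ()

/-- the base vertex -/
def v0 : B3.Space := B3.vertex ()

/-- the point with parameter `t` on the `j`-th loop -/
def lp (j : Fin 3) (t : I) : B3.Space := Quot.mk _ (Sum.inr ⟨j, t⟩)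

theorem lp_zero (j : Fin 3) : lp j 0 = v0 := Quot.sound (Graph.Glue.src (Γ := B3) j)
theorem lp_one (j : Fin 3) : lp j 1 = v0 := Quot.sound (Graph.Glue.tgt (Γ := B3) j)
theorem lp_end (j : Fin 3) (t : I) (h : t = 0 ∨ t = 1) : lp j t = v0 := by
  rcases h with rfl | rfl
  · exact lp_zero j
  · exact lp_one j

theorem continuous_lp (j : Fin 3) : Continuous (lp j) :=
  continuous_quot_mk.comp (continuous_inr.comp (@continuous_sigmaMk _ (fun _ : Fin 3 => I) _ j))

/-- the three dimensional torus -/
abbrev T3 : Type := Fin 3 → AddCircle (1 : ℝ)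

/-- a point of the torus with one nonzero coordinate -/
noncomputable def sg (j : Fin 3) (a : AddCircle (1 : ℝ)) : T3 := Pi.single j a

theorem continuous_sg (j : Fin 3) : Continuous (sg j) := by
  refine continuous_pi fun k => ?_
  by_cases h : k = j
  · subst h
    have : (fun a => sg k a k) = fun a => a := by
      funext a; exact Pi.single_eq_same _ _
    rw [this]; exact continuous_id
  · have : (fun a => sg j a k) = fun _ => 0 := by
      funext a; exact Pi.single_eq_of_ne h _
    rw [this]; exact continuous_const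

/-- the map on the pieces -/
noncomputable def preα : B3.Pre → T3
  | Sum.inl _ => 0
  | Sum.inr ⟨j, t⟩ => sg j ((t : ℝ) : AddCircle (1 : ℝ))

/-- the map of the bouquet into the torus -/
noncomputable def α : B3.Space → T3 := Quot.lift preα (by
  rintro _ _ (e | e)
  · simp [preα, sg]
  · simp [preα, sg, AddCircle.coe_period])

theorem α_lp (j : Fin 3) (t : I) :
    α (lp j t) = sg j ((t : ℝ) : AddCircle (1 : ℝ)) :=
  rfl

theorem continuous_preα : Continuous preα := by
  refine continuous_sum_dom.2 ⟨?_, ?_⟩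
  · exact continuous_const
  · refine continuous_sigma fun j => ?_
    change Continuous fun t : I => sg j ((t : ℝ) : AddCircle (1 : ℝ))
    refine (continuous_sg j).comp ?_
    exact (AddCircle.continuous_mk' 1).comp continuous_subtype_val

theorem continuous_α : Continuous α := continuous_quot_lift _ continuous_preα

theorem α_support (q : B3.Space) : ∃ j, ∀ k, k ≠ j → α q k = 0 := by
  induction q using Quot.ind with
  | mk a =>
    rcases a with _ | ⟨j, t⟩
    · exact ⟨0, fun k _ => rfl⟩
    · refine ⟨j, fun k hk => ?_⟩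
      change sg j ((t : ℝ) : AddCircle (1 : ℝ)) k = 0
      exact Pi.single_eq_of_ne hk _

theorem fin3_a : ∀ i j : Fin 3, ∃ k : Fin 3, k ≠ i ∧ k ≠ j := by decide
theorem fin3_b : ∀ i : Fin 3, i + 1 + 1 = i + 2 := by decide
theorem fin3_c : ∀ i : Fin 3, i + 1 + 2 = i := by decide
theorem fin3_d : ∀ i j : Fin 3, j = i ∨ j = i + 1 ∨ i = j + 1 := by decide
theorem fin3_e : ∀ i k : Fin 3, k = i ∨ k = i + 1 ∨ k = i + 2 := by decide
theorem fin3_f : ∀ i : Fin 3, i ≠ i + 1 := by decide
theorem fin3_g : ∀ i : Fin 3, i ≠ i + 2 := by decide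

/-- the configuration space -/
abbrev UC : Type := UConf B3 Set.univ 2

/-- the sum map -/
noncomputable def sm : UC → T3 := Quot.lift (fun x => ∑ i, α (x.1 i)) (by
  rintro x y ⟨τ, hτ⟩
  simp only [hτ]
  exact (Equiv.sum_comp τ fun i => α (x.1 i)).symm)

theorem continuous_sm : Continuous sm := by
  refine continuous_quot_lift _ ?_
  refine continuous_finsetSum _ fun i _ => ?_
  exact continuous_α.comp ((continuous_apply i).comp continuous_subtype_val)

theorem sm_zero (z : UC) : ∃ k, sm z k = 0 := by
  induction z using Quot.ind with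
  | mk x =>
    obtain ⟨j0, h0⟩ := α_support (x.1 0)
    obtain ⟨j1, h1⟩ := α_support (x.1 1)
    obtain ⟨k, hk0, hk1⟩ : ∃ k : Fin 3, k ≠ j0 ∧ k ≠ j1 := fin3_a j0 j1
    refine ⟨k, ?_⟩
    change (∑ i, α (x.1 i)) k = 0
    rw [Fin.sum_univ_two, Pi.add_apply, h0 k hk0, h1 k hk1, add_zero]

/-- Points of different loops coincide only at the vertex. -/
theorem collide {j k : Fin 3} (hjk : j ≠ k) (s t : I) (h : lp j s = lp k t) : lp j s = v0 := by
  have h1 := congrFun (congrArg α h) j
  rw [α_lp, α_lp, sg, sg, Pi.single_eq_same, Pi.single_eq_of_ne hjk] at h1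
  rw [AddCircle.coe_eq_zero_iff] at h1
  obtain ⟨n, hn⟩ := h1
  rw [zsmul_eq_mul, mul_one] at hn
  have h0 := s.2.1
  have h2 := s.2.2
  rw [← hn] at h0 h2
  have h3 : (0 : ℤ) ≤ n := by exact_mod_cast h0
  have h4 : n ≤ 1 := by exact_mod_cast h2
  apply lp_end
  rcases (by omega : n = 0 ∨ n = 1) with rfl | rfl
  · left; apply Subtype.ext; rw [← hn]; simp
  · right; apply Subtype.ext; rw [← hn]; simp

theorem face_aux (i : Fin 3) : i + 1 ≠ i + 2 := by revert i; decide

/-- The ordered configuration on the `i`-th pair of opposite faces. -/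
def oface (i : Fin 3) (t : Fin 3 → I) : Conf B3 Set.univ 2 :=
  ⟨![lp (i + 1) (t (i + 1)), lp (i + 2) (t (i + 2))], by
    intro a b hab h
    refine ⟨(), trivial, ?_⟩
    fin_cases a <;> fin_cases b
    · exact absurd rfl hab
    · exact collide (face_aux i) _ _ h
    · exact collide (face_aux i).symm _ _ h
    · exact absurd rfl hab⟩

/-- The configuration on the `i`-th pair of opposite faces. -/
def face (i : Fin 3) (t : Fin 3 → I) : UC := Quot.mk _ (oface i t)

theorem continuous_face (i : Fin 3) : Continuous (face i) := by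
  refine continuous_quot_mk.comp (Continuous.subtype_mk ?_ _)
  refine continuous_pi fun a => ?_
  fin_cases a
  · exact (continuous_lp _).comp (continuous_apply _)
  · exact (continuous_lp _).comp (continuous_apply _)

theorem face_succ (i : Fin 3) (t : Fin 3 → I) (h0 : t i = 0 ∨ t i = 1)
    (h1 : t (i + 1) = 0 ∨ t (i + 1) = 1) : face i t = face (i + 1) t := by
  refine Quot.sound ⟨Equiv.swap 0 1, fun a => ?_⟩
  have e1 := fin3_b i
  have e2 := fin3_c i
  fin_cases a
  · change lp (i + 1 + 1) (t (i + 1 + 1)) = ![lp (i + 1) (t (i + 1)), lp (i + 2) (t (i + 2))] (Equiv.swap 0 1 0)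
    rw [Equiv.swap_apply_left, e1]
    rfl
  · change lp (i + 1 + 2) (t (i + 1 + 2)) = ![lp (i + 1) (t (i + 1)), lp (i + 2) (t (i + 2))] (Equiv.swap 0 1 1)
    rw [Equiv.swap_apply_right, e2, lp_end i _ h0]
    exact (lp_end (i + 1) _ h1).symm

theorem face_eq (i j : Fin 3) (t : Fin 3 → I) (h0 : t i = 0 ∨ t i = 1)
    (h1 : t j = 0 ∨ t j = 1) : face i t = face j t := by
  rcases fin3_d i j with h | h | h
  · rw [h]
  · subst h; exact face_succ i t h0 h1
  · subst h; exact (face_succ j t h1 h0).symm

/-- the boundary of the three dimensional cube -/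
abbrev Bd : Type := {t : Fin 3 → I // ∃ i, t i = 0 ∨ t i = 1}

/-- The map of the boundary of the cube into the configuration space. -/
noncomputable def P (t : Bd) : UC := face t.2.choose t.1

theorem P_eq (t : Bd) (i : Fin 3) (h : t.1 i = 0 ∨ t.1 i = 1) : P t = face i t.1 :=
  face_eq _ _ _ t.2.choose_spec h

theorem continuous_P : Continuous P := by
  refine (locallyFinite_of_finite (fun i : Fin 3 => {t : Bd | t.1 i = 0 ∨ t.1 i = 1})).continuous
    ?_ ?_ ?_
  · rw [Set.eq_univ_iff_forall]
    intro t
    obtain ⟨i, hi⟩ := t.2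
    exact Set.mem_iUnion.2 ⟨i, hi⟩
  · intro i
    have hc : Continuous fun t : Bd => t.1 i := (continuous_apply i).comp continuous_subtype_val
    exact (isClosed_singleton.preimage hc).union (isClosed_singleton.preimage hc)
  · intro i
    refine ContinuousOn.congr (f := fun t : Bd => face i t.1) ?_ ?_
    · exact ((continuous_face i).comp continuous_subtype_val).continuousOn
    · intro t ht
      exact P_eq t i ht

theorem sm_P (t : Bd) (k : Fin 3) : sm (P t) k = ((t.1 k : ℝ) : AddCircle (1 : ℝ)) := by
  obtain ⟨i, hi⟩ := t.2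
  rw [P_eq t i hi]
  change (∑ a, α ((oface i t.1).1 a)) k = _
  rw [Fin.sum_univ_two]
  change (α (lp (i + 1) (t.1 (i + 1))) + α (lp (i + 2) (t.1 (i + 2)))) k = _
  rw [α_lp, α_lp, Pi.add_apply, sg, sg]
  rcases fin3_e i k with h | h | h
  · subst h
    rw [Pi.single_eq_of_ne (fin3_f k), Pi.single_eq_of_ne (fin3_g k), add_zero]
    rcases hi with hi | hi
    · rw [hi]; simp
    · rw [hi]; simp [AddCircle.coe_period]
  · subst h
    rw [Pi.single_eq_same, Pi.single_eq_of_ne (face_aux i), add_zero]
  · subst h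
    rw [Pi.single_eq_same, Pi.single_eq_of_ne (face_aux i).symm, zero_add]

end Pool.Agent.R731.SK
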